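import Pool.Agent.Y382.PAR.Stm

/-!
Job PAR-PRI (helper459): linear maps of the prime field.
-/

set_option autoImplicit false

namespace Pool.Agent.Y459.PAR

open Pool.Agent.Y382.PAR

variable {p : ℕ} [Fact p.Prime]

/-- the sign of the multiplication by `a` -/
noncomputable def t (a : ZMod p) : ℤˣ :=
  if h : a = 0 then 1 else Equiv.Perm.sign (Equiv.mulLeft₀ a h)

theorem t_ne {a : ZMod p} (h : a ≠ 0) : t a = Equiv.Perm.sign (Equiv.mulLeft₀ a h) := dif_neg h

theorem t_mul {a b : ZMod p} (ha : a ≠ 0) (hb : b ≠ 0) : t (a * b) = t a * t b := by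
  rw [t_ne ha, t_ne hb, t_ne (mul_ne_zero ha hb), ← map_mul]
  congr 1
  ext x
  simp [mul_assoc]

theorem t_one : t (1 : ZMod p) = 1 := by
  have h := t_mul (p := p) (a := 1) (b := 1) one_ne_zero one_ne_zero
  rw [mul_one] at h
  exact left_eq_mul₀ (Units.ne_zero _) |>.1 (congrArg Units.val h) |> Units.ext

theorem t_inv {a : ZMod p} (ha : a ≠ 0) : t a⁻¹ = t a := by
  have h := t_mul (a := a) (b := a⁻¹) ha (inv_ne_zero ha)
  rw [mul_inv_cancel₀ ha, t_one] at h
  rcases Int.units_eq_one_or (t a) with h1 | h1 <;> rcases Int.units_eq_one_or (t a⁻¹) with h2 | h2 <;>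
    rw [h1, h2] at h ⊢ <;> revert h <;> decide

theorem cast_ne {m : ℕ} (h1 : 1 ≤ m) (h2 : m < p) : (m : ZMod p) ≠ 0 := by
  intro h
  rw [ZMod.natCast_eq_zero_iff] at h
  exact absurd (Nat.le_of_dvd h1 h) (by omega)

theorem exists_neg (hp : 7 ≤ p) : ∃ u : ZMod p, u ≠ 0 ∧ t u = -1 := by
  obtain ⟨g, hg⟩ := IsCyclic.exists_generator (α := (ZMod p)ˣ)
  have hg0 : (g : ZMod p) ≠ 0 := g.ne_zero
  refine ⟨g, hg0, ?_⟩
  rw [t_ne hg0]
  have hpow : ∀ (k : ℤ), ((Equiv.mulLeft₀ (g : ZMod p) hg0) ^ k) 1 = ((g ^ k : (ZMod p)ˣ) : ZMod p) := by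
    intro k
    have h1 : Equiv.mulLeft₀ (g : ZMod p) hg0 = MulAction.toPermHom (ZMod p)ˣ (ZMod p) g := by
      ext x
      rfl
    rw [h1, ← map_zpow]
    change (g ^ k : (ZMod p)ˣ) • (1 : ZMod p) = _
    rw [Units.smul_def, smul_eq_mul, mul_one]
  have hg1 : (g : ZMod p) ≠ 1 := by
    intro h
    have h2 : g = 1 := Units.ext h
    have h3 := hg (-1)
    rw [h2, Subgroup.zpowers_one_eq_bot, Subgroup.mem_bot] at h3
    have h4 : ((2 : ℕ) : ZMod p) = 0 := by
      have := congrArg Units.val h3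
      rw [Units.val_neg, Units.val_one] at this
      push_cast
      linear_combination -this
    exact cast_ne (by norm_num) (by omega) h4
  have hcyc : (Equiv.mulLeft₀ (g : ZMod p) hg0).IsCycle := by
    refine ⟨1, by simpa using hg1, fun y hy => ?_⟩
    have hy0 : y ≠ 0 := by
      rintro rfl
      simp at hy
    obtain ⟨k, hk⟩ := Subgroup.mem_zpowers_iff.1 (hg (Units.mk0 y hy0))
    refine ⟨k, ?_⟩
    rw [hpow, hk]
    rfl
  have hsupp : (Equiv.mulLeft₀ (g : ZMod p) hg0).support = Finset.univ.erase 0 := by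
    ext y
    rw [Equiv.Perm.mem_support, Finset.mem_erase]
    constructor
    · intro h
      refine ⟨?_, Finset.mem_univ _⟩
      rintro rfl
      simp at h
    · rintro ⟨hy, -⟩ h
      have h2 : (g : ZMod p) * y = y := h
      exact hg1 (mul_right_cancel₀ hy (by rw [h2, one_mul]))
  rw [hcyc.sign, hsupp, Finset.card_erase_of_mem (Finset.mem_univ _), Finset.card_univ, ZMod.card]
  have hodd : Odd p := (Fact.out : p.Prime).odd_of_ne_two (by omega)
  obtain ⟨r, hr⟩ := hodd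
  have h5 : p - 1 = 2 * r := by omega
  rw [h5, pow_mul]
  simp

theorem pm (x : ℤˣ) (h : x ≠ -1) : x = 1 := (Int.units_eq_one_or x).resolve_right h

theorem first (hp : 7 ≤ p) : ∃ n : ℕ, 2 ≤ n ∧ n < p ∧ t (n : ZMod p) = -1 ∧
    ∀ m : ℕ, 1 ≤ m → m < n → t (m : ZMod p) = 1 := by
  classical
  obtain ⟨u, hu0, hu⟩ := exists_neg hp
  have hex : ∃ n : ℕ, 1 ≤ n ∧ n < p ∧ t (n : ZMod p) = -1 := by
    refine ⟨u.val, ?_, ZMod.val_lt u, by rw [ZMod.natCast_zmod_val]; exact hu⟩
    rw [Nat.one_le_iff_ne_zero, Ne, ZMod.val_eq_zero]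
    exact hu0
  obtain ⟨h1, h2, h3⟩ := Nat.find_spec hex
  have hmin : ∀ m : ℕ, 1 ≤ m → m < Nat.find hex → t (m : ZMod p) = 1 := fun m hm1 hm2 =>
    pm _ fun h => Nat.find_min hex hm2 ⟨hm1, by omega, h⟩
  refine ⟨Nat.find hex, ?_, h2, h3, hmin⟩
  by_contra hlt
  have h4 : Nat.find hex = 1 := by omega
  rw [h4, Nat.cast_one, t_one] at h3
  exact absurd h3 (by decide)

theorem t_two_pow (hp : 7 ≤ p) : t ((4 : ℕ) : ZMod p) = 1 := by
  have h2 := cast_ne (p := p) (m := 2) (by norm_num) (by omega)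
  have h := t_mul h2 h2
  rw [Int.units_mul_self] at h
  rw [← h]
  congr 1
  push_cast
  norm_num

theorem nr (hp : 7 ≤ p) : ∃ a : ZMod p, a ≠ 0 ∧ a + 1 ≠ 0 ∧ t a = -1 ∧ t (a + 1) = 1 := by
  obtain ⟨n, hn2, hnp, hn, hmin⟩ := first hp
  by_contra hcon
  push Not at hcon
  have hall : ∀ m : ℕ, n ≤ m → m < p → t (m : ZMod p) = -1 := by
    intro m hm
    induction m, hm using Nat.le_induction with
    | base => intro _; exact hn
    | succ m hm ih =>
      intro hmp
      have h1 := ih (by omega)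
      have h2 := hcon (m : ZMod p) (cast_ne (by omega) (by omega))
        (by have := cast_ne (p := p) (m := m + 1) (by omega) hmp; push_cast at this; exact this) h1
      push_cast
      exact (Int.units_eq_one_or _).resolve_left h2
  have h4 := t_two_pow hp
  have hn4 : 4 < n := by
    by_contra hlt
    rw [hall 4 (by omega) (by omega)] at h4
    exact absurd h4 (by decide)
  have h2 : t ((2 : ℕ) : ZMod p) = 1 := hmin 2 (by norm_num) (by omega)
  obtain ⟨r, hr⟩ := (Fact.out : p.Prime).odd_of_ne_two (by omega)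
  have hp0 : ((p : ℕ) : ZMod p) = 0 := ZMod.natCast_self p
  have hr1 : t ((r + 1 : ℕ) : ZMod p) = 1 := by
    have hne := cast_ne (p := p) (m := r + 1) (by omega) (by omega)
    have hne2 := cast_ne (p := p) (m := 2) (by norm_num) (by omega)
    have h5 := t_mul hne2 hne
    have h6 : ((2 : ℕ) : ZMod p) * ((r + 1 : ℕ) : ZMod p) = 1 := by
      have h7 : ((2 * (r + 1) : ℕ) : ZMod p) = ((p + 1 : ℕ) : ZMod p) := by
        congr 1
        omega
      push_cast at h7 hp0 ⊢
      rw [h7, hp0, zero_add]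
    rw [h6, t_one, h2, one_mul] at h5
    exact h5.symm
  have hrn : r + 1 < n := by
    by_contra hlt
    rw [hall (r + 1) (by omega) (by omega)] at hr1
    exact absurd hr1 (by decide)
  have hm1 : t ((p - 1 : ℕ) : ZMod p) = -1 := hall (p - 1) (by omega) (by omega)
  have hn1 : t ((n - 1 : ℕ) : ZMod p) = 1 := hmin (n - 1) (by omega) (by omega)
  have hlast : t ((p - n + 1 : ℕ) : ZMod p) = -1 := by
    have h5 := t_mul (cast_ne (p := p) (m := p - 1) (by omega) (by omega))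
      (cast_ne (p := p) (m := n - 1) (by omega) (by omega))
    rw [hm1, hn1, mul_one] at h5
    rw [← h5]
    congr 1
    rw [Nat.cast_add, Nat.cast_sub (by omega), Nat.cast_sub (by omega), Nat.cast_sub (by omega), hp0]
    push_cast
    ring
  rw [hmin (p - n + 1) (by omega) (by omega)] at hlast
  exact absurd hlast (by decide)

theorem all4 (hp : 7 ≤ p) (ε δ : ℤˣ) :
    ∃ a : ZMod p, a ≠ 0 ∧ a + 1 ≠ 0 ∧ t a = ε ∧ t (a + 1) = δ := by
  have c2 := cast_ne (p := p) (m := 2) (by norm_num) (by omega)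
  have c3 := cast_ne (p := p) (m := 3) (by norm_num) (by omega)
  have c4 := cast_ne (p := p) (m := 4) (by norm_num) (by omega)
  have c5 := cast_ne (p := p) (m := 5) (by norm_num) (by omega)
  rcases Int.units_eq_one_or ε with rfl | rfl <;> rcases Int.units_eq_one_or δ with rfl | rfl
  · by_cases h2 : t ((2 : ℕ) : ZMod p) = 1
    · refine ⟨1, one_ne_zero, ?_, t_one, ?_⟩
      · have : (1 : ZMod p) + 1 = ((2 : ℕ) : ZMod p) := by push_cast; norm_num
        rw [this]
        exact c2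
      · have : (1 : ZMod p) + 1 = ((2 : ℕ) : ZMod p) := by push_cast; norm_num
        rw [this]
        exact h2
    by_cases h5 : t ((5 : ℕ) : ZMod p) = 1
    · have e : ((4 : ℕ) : ZMod p) + 1 = ((5 : ℕ) : ZMod p) := by push_cast; norm_num
      exact ⟨((4 : ℕ) : ZMod p), c4, by rw [e]; exact c5, t_two_pow hp, by rw [e]; exact h5⟩
    · have h2' := (Int.units_eq_one_or _).resolve_left h2
      have h5' := (Int.units_eq_one_or _).resolve_left h5
      have e : ((3 : ℕ) : ZMod p) * ((3 : ℕ) : ZMod p) + 1 =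
          ((2 : ℕ) : ZMod p) * ((5 : ℕ) : ZMod p) := by push_cast; norm_num
      refine ⟨((3 : ℕ) : ZMod p) * ((3 : ℕ) : ZMod p), mul_ne_zero c3 c3, ?_, ?_, ?_⟩
      · rw [e]
        exact mul_ne_zero c2 c5
      · rw [t_mul c3 c3, Int.units_mul_self]
      · rw [e, t_mul c2 c5, h2', h5']
        decide
  · obtain ⟨n, hn2, hnp, hn, hmin⟩ := first hp
    have e : ((n - 1 : ℕ) : ZMod p) + 1 = (n : ZMod p) := by
      rw [Nat.cast_sub (by omega)]
      push_cast
      ring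
    exact ⟨((n - 1 : ℕ) : ZMod p), cast_ne (by omega) (by omega),
      by rw [e]; exact cast_ne (by omega) hnp, hmin _ (by omega) (by omega), by rw [e]; exact hn⟩
  · exact nr hp
  · obtain ⟨b, hb0, hb1, hb, hb'⟩ := nr hp
    have e : b⁻¹ + 1 = (b + 1) * b⁻¹ := by
      rw [add_mul, mul_inv_cancel₀ hb0, one_mul, add_comm]
    refine ⟨b⁻¹, inv_ne_zero hb0, ?_, ?_, ?_⟩
    · rw [e]
      exact mul_ne_zero hb1 (inv_ne_zero hb0)
    · rw [t_inv hb0, hb]
    · rw [e, t_mul hb1 (inv_ne_zero hb0), t_inv hb0, hb, hb', one_mul]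

theorem t_PRI : Pool.Agent.Y382.PAR.S_PRI := by
  intro p _ hp ε δ
  obtain ⟨a, ha, ha1, h1, h2⟩ := all4 hp ε δ
  refine ⟨Equiv.mulLeft₀ a ha, Equiv.mulLeft₀ (a + 1) ha1, fun x => ?_, ?_, ?_⟩
  · change (a + 1) * x = x + a * x
    ring
  · rw [sgn_eq, ← t_ne, h1]
  · rw [sgn_eq, ← t_ne, h2]

end Pool.Agent.Y459.PAR
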